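import Mathlib

namespace Pool.Agent.Results.MP_2b19eb_nt.Missing

/-- a(n) = lcm(1,...,n) / (denominator of the n-th harmonic number). -/
def a (n : ℕ) : ℕ := (Finset.Icc 1 n).lcm id / (harmonic n).den

lemma pow_dvd_lcm (n k : ℕ) (hk : 1 ≤ k) (h : 3 ^ k ∣ (Finset.Icc 1 n).lcm id) : 3 ^ k ≤ n := by
  induction n with
  | zero =>
    simp at h
    omega
  | succ n ih =>
    rw [← Finset.insert_Icc_right_eq_Icc_add_one (by omega), Finset.lcm_insert] at h
    have h0 : (Finset.Icc 1 n).lcm id ≠ 0 := by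
      rw [Ne, Finset.lcm_eq_zero_iff]
      simp only [Finset.mem_Icc, id, not_exists, not_and]
      intro x hx; omega
    have h1 : Nat.lcm (n + 1) ((Finset.Icc 1 n).lcm id) ≠ 0 := Nat.lcm_ne_zero (by omega) h0
    change 3 ^ k ∣ Nat.lcm (n + 1) ((Finset.Icc 1 n).lcm id) at h
    rw [Nat.prime_three.pow_dvd_iff_le_factorization h1, Nat.factorization_lcm (by omega) h0,
      Finsupp.sup_apply, le_sup_iff] at h
    rcases h with h | h
    · rw [← Nat.prime_three.pow_dvd_iff_le_factorization (by omega)] at h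
      exact Nat.le_of_dvd (by omega) h
    · rw [← Nat.prime_three.pow_dvd_iff_le_factorization h0] at h
      exact (ih h).trans (by omega)

lemma split3 (n : ℕ) : padicNorm 3 (harmonic n - harmonic (n / 3) / 3) ≤ 1 := by
  induction n with
  | zero => simp
  | succ n ih =>
    by_cases h : 3 ∣ n + 1
    · obtain ⟨m, hm⟩ := h
      have h1 : (n + 1) / 3 = n / 3 + 1 := by omega
      have h2 : ((n + 1 : ℕ) : ℚ) = 3 * ((n / 3 + 1 : ℕ) : ℚ) := by
        exact_mod_cast (by omega : n + 1 = 3 * (n / 3 + 1))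
      rw [h1, harmonic_succ, harmonic_succ, h2]
      convert ih using 2
      field_simp
      ring
    · have h1 : (n + 1) / 3 = n / 3 := by omega
      rw [h1, harmonic_succ]
      have h2 : padicNorm 3 (((n + 1 : ℕ) : ℚ)⁻¹) ≤ 1 := by
        have h3 : padicNorm 3 ((n + 1 : ℕ) : ℚ) = 1 := (padicNorm.nat_eq_one_iff _).mpr h
        rw [inv_eq_one_div, padicNorm.div, h3]
        simp
      have e : harmonic n + ((n + 1 : ℕ) : ℚ)⁻¹ - harmonic (n / 3) / 3
          = (harmonic n - harmonic (n / 3) / 3) + ((n + 1 : ℕ) : ℚ)⁻¹ := by ring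
      rw [e]
      exact padicNorm.nonarchimedean.trans (max_le ih h2)

lemma base : ∀ n ∈ Finset.Ico 27 81, ¬ (3 : ℤ) ∣ (harmonic n).num := by decide +kernel

lemma norm_ge (k n : ℕ) (h1 : 27 * 3 ^ k ≤ n) (h2 : n < 81 * 3 ^ k) :
    (3 : ℚ) ^ k ≤ padicNorm 3 (harmonic n) := by
  induction k generalizing n with
  | zero =>
    have hb := base n (by simp at h1 h2 ⊢; omega)
    have e : harmonic n = ((harmonic n).num : ℚ) / ((harmonic n).den : ℚ) :=
      (Rat.num_div_den _).symm
    rw [e, padicNorm.div, (padicNorm.int_eq_one_iff _).mpr hb, pow_zero, le_div_iff₀, one_mul]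
    · exact padicNorm.of_nat _
    · exact lt_of_le_of_ne (padicNorm.nonneg _)
        (padicNorm.nonzero (by exact_mod_cast (harmonic n).den_nz)).symm
  | succ k ih =>
    have h3 := ih (n / 3) (by rw [pow_succ] at h1; omega) (by rw [pow_succ] at h2; omega)
    have h4 : padicNorm 3 (harmonic (n / 3) / 3) = 3 * padicNorm 3 (harmonic (n / 3)) := by
      have : padicNorm 3 (3 : ℚ) = 3⁻¹ := by
        exact_mod_cast padicNorm.padicNorm_p (p := 3) (by norm_num)
      rw [padicNorm.div, this]; field_simp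
    have h5 := split3 n
    have h6 : (1 : ℚ) ≤ 3 ^ k := one_le_pow₀ (by norm_num)
    have e : harmonic (n / 3) / 3 = harmonic n - (harmonic n - harmonic (n / 3) / 3) := by ring
    have h7 : padicNorm 3 (harmonic (n / 3) / 3)
        ≤ max (padicNorm 3 (harmonic n)) (padicNorm 3 (harmonic n - harmonic (n / 3) / 3)) := by
      conv_lhs => rw [e]
      exact padicNorm.sub
    rw [h4] at h7
    rw [pow_succ]
    rcases le_max_iff.mp h7 with h | h <;> linarith

lemma den_dvd (k : ℕ) (q : ℚ) (h : (3 : ℚ) ^ k ≤ padicNorm 3 q) : 3 ^ k ∣ q.den := by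
  have hq : q ≠ 0 := by
    rintro rfl
    have : (0 : ℚ) < 3 ^ k := by positivity
    simp at h
    linarith
  rw [padicNorm.eq_zpow_of_nonzero hq, ← zpow_natCast, Nat.cast_ofNat,
    zpow_le_zpow_iff_right₀ (by norm_num), padicValRat] at h
  rw [padicValNat_dvd_iff_le q.den_nz]
  omega

theorem result : ∃ m : ℕ, Odd m ∧ ∀ n : ℕ, 1 ≤ n → a n ≠ m := by
  refine ⟨81, by decide, fun n hn h => ?_⟩
  unfold a at h
  have hd : (harmonic n).den ∣ (Finset.Icc 1 n).lcm id := by
    unfold harmonic
    induction n with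
    | zero => simp
    | succ n _ =>
      have : ∀ m ≤ n + 1, (∑ i ∈ Finset.range m, ((i + 1 : ℕ) : ℚ)⁻¹).den
          ∣ (Finset.Icc 1 (n + 1)).lcm id := by
        intro m
        induction m with
        | zero => simp
        | succ m ih =>
          intro hm
          rw [Finset.sum_range_succ]
          refine (Rat.add_den_dvd_lcm _ _).trans (Nat.lcm_dvd (ih (by omega)) ?_)
          rw [Rat.inv_natCast_den_of_pos (by omega)]
          exact Finset.dvd_lcm (f := id) (by simp; omega)
      exact this _ le_rfl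
  have hL : (Finset.Icc 1 n).lcm id = (harmonic n).den * 81 := by
    rw [← h, Nat.mul_div_cancel' hd]
  have h81 : 81 ≤ n := by
    have := pow_dvd_lcm n 4 (by norm_num) (by rw [hL]; exact Dvd.intro_left _ rfl)
    omega
  obtain ⟨k, hk⟩ : ∃ k, Nat.log 3 n = k + 3 := by
    have : 4 ≤ Nat.log 3 n := Nat.le_log_of_pow_le (by norm_num) (by omega)
    exact ⟨Nat.log 3 n - 3, by omega⟩
  have h1 : 3 ^ (k + 3) ≤ n := hk ▸ Nat.pow_log_le_self 3 (by omega)
  have h2 : n < 3 ^ (k + 3 + 1) := hk ▸ Nat.lt_pow_succ_log_self (by norm_num) n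
  have h3 := den_dvd k _ (norm_ge k n (by rw [pow_add] at h1; omega)
    (by rw [add_assoc, pow_add] at h2; omega))
  have h4 := pow_dvd_lcm n (k + 4) (by omega) (by
    rw [hL, pow_add]; exact Nat.mul_dvd_mul h3 (by norm_num))
  exact absurd h2 (not_lt.mpr h4)

end Pool.Agent.Results.MP_2b19eb_nt.Missing
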